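import Mathlib

set_option autoImplicit false

namespace Pool.Agent.Results.MP_e25dcb_al.Counterexample

open DihedralGroup

section Defs

variable {W : Type} [Group W]

/-- Word length with respect to `S`. -/
noncomputable def len (S : Set W) (w : W) : ℕ :=
  sInf {n | ∃ l : List W, (∀ s ∈ l, s ∈ S) ∧ l.prod = w ∧ l.length = n}

/-- Reduced words over `S`. -/
def Reduced (S : Set W) (l : List W) : Prop := (∀ s ∈ l, s ∈ S) ∧ l.length = len S l.prod

/-- The right weak order: a reduced word for `u` is an initial segment of a reduced word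
for `v`. -/
def leR (S : Set W) (u v : W) : Prop :=
  ∃ l m : List W, Reduced S l ∧ Reduced S (l ++ m) ∧ l.prod = u ∧ (l ++ m).prod = v

/-- `m` is a greatest lower bound of `X` in the weak order. -/
def IsMeet (S X : Set W) (m : W) : Prop :=
  (∀ x ∈ X, leR S m x) ∧ ∀ y, (∀ x ∈ X, leR S y x) → leR S y m

/-- `j` is a least upper bound of `X` in the weak order. -/
def IsJoin (S X : Set W) (j : W) : Prop :=
  (∀ x ∈ X, leR S x j) ∧ ∀ y, (∀ x ∈ X, leR S x y) → leR S j y

/-- Even meet involution systems. -/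
structure EMIS (S : Set W) : Prop where
  finite : S.Finite
  invol : ∀ s ∈ S, orderOf s = 2
  gen : Subgroup.closure S = ⊤
  sign : ∃ ε : W →* ℤˣ, ∀ s ∈ S, ε s = -1
  meet : ∀ X : Set W, X.Nonempty → ∃ m, IsMeet S X m

end Defs

/-- The group `D₄ × C₂` of order 16. -/
abbrev G := DihedralGroup 4 × Multiplicative (ZMod 2)

def a : G := (sr 0, 1)
def b : G := (sr 0, Multiplicative.ofAdd 1)
def c : G := (sr 1, 1)
def d : G := (sr 3, Multiplicative.ofAdd 1)

/-- The generating set. -/
def S : Set G := {a, b, c, d}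

instance : DecidablePred (· ∈ S) := fun x =>
  inferInstanceAs (Decidable (x = a ∨ x = b ∨ x = c ∨ x = d))

def idx : G → ℕ
  | (r i, e) => 2 * i.val + e.toAdd.val
  | (sr i, e) => 8 + 2 * i.val + e.toAdd.val

def wd (x : G) : List G :=
  [[], [a, b], [a, c], [b, c], [a, b, c, d], [c, d], [b, d], [a, d], [a], [b], [c], [a, b, c],
    [b, c, d], [a, c, d], [a, b, d], [d]].getD (idx x) []

def L (x : G) : ℕ := [0, 2, 2, 2, 4, 2, 2, 2, 1, 1, 1, 3, 3, 3, 3, 1].getD (idx x) 0

lemma wd_spec : ∀ x, (∀ s ∈ wd x, s ∈ S) ∧ (wd x).prod = x ∧ (wd x).length = L x := by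
  decide +kernel

lemma L_step : ∀ s ∈ S, ∀ x, L (s * x) ≤ L x + 1 := by
  rintro s (rfl | rfl | rfl | rfl) <;> decide +kernel

lemma L_le (l : List G) (h : ∀ s ∈ l, s ∈ S) : L l.prod ≤ l.length := by
  induction l with
  | nil => decide +kernel
  | cons s l ih =>
    rw [List.prod_cons, List.length_cons]
    exact (L_step s (h s (by simp)) _).trans (Nat.succ_le_succ (ih fun t ht => h t (by simp [ht])))

lemma len_eq (x : G) : len S x = L x :=
  le_antisymm (Nat.sInf_le ⟨wd x, wd_spec x⟩) (le_csInf ⟨_, wd x, wd_spec x⟩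
    (by rintro _ ⟨l, h, rfl, rfl⟩; exact L_le l h))

def le (u v : G) : Prop := L u + L (u⁻¹ * v) = L v

instance (u v : G) : Decidable (le u v) := inferInstanceAs (Decidable (_ = _))

lemma tri : ∀ u v : G, L v ≤ L u + L (u⁻¹ * v) := by decide +kernel

lemma leR_iff (u v : G) : leR S u v ↔ le u v := by
  constructor
  · rintro ⟨l, m, h1, h2, rfl, rfl⟩
    have h3 := L_le m fun s hs => h2.1 s (by simp [hs])
    have h4 := h1.2
    have h5 := h2.2
    have h6 := tri l.prod (l ++ m).prod
    rw [len_eq] at h4 h5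
    simp only [le, List.prod_append, List.length_append, inv_mul_cancel_left] at *
    omega
  · intro h
    obtain ⟨a1, a2, a3⟩ := wd_spec u
    obtain ⟨b1, b2, b3⟩ := wd_spec (u⁻¹ * v)
    have e : (wd u ++ wd (u⁻¹ * v)).prod = v := by simp [a2, b2]
    refine ⟨wd u, wd (u⁻¹ * v), ⟨a1, by rw [len_eq, a2, a3]⟩, ⟨fun s hs => ?_, ?_⟩, a2, e⟩
    · exact (List.mem_append.mp hs).elim (a1 s) (b1 s)
    · rw [len_eq, e, List.length_append, a3, b3, h]

lemma meet2 : ∀ x y : G, ∃ m, ∀ z, le z m ↔ le z x ∧ le z y := by decide +kernel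

lemma le_rfl' : ∀ x : G, le x x := by decide +kernel

lemma meets (X : Finset G) (hX : X.Nonempty) : ∃ m, ∀ z, le z m ↔ ∀ x ∈ X, le z x := by
  induction hX using Finset.Nonempty.cons_induction with
  | singleton x => exact ⟨x, by simp⟩
  | cons x s _ _ ih =>
    obtain ⟨m, hm⟩ := ih
    obtain ⟨n, hn⟩ := meet2 x m
    exact ⟨n, by simp [hn, hm]⟩

def sgn : G → ℤˣ
  | (r _, _) => 1
  | (sr _, _) => -1

lemma notMem {x : G} (hx : x.2 ≠ 1) : x ∉ Subgroup.closure ({a, c} : Set G) := fun h =>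
  hx ((Subgroup.closure_le (MonoidHom.snd (DihedralGroup 4)
    (Multiplicative (ZMod 2))).ker).mpr (by rintro _ (rfl | rfl) <;> rfl) h)

/-- An EMIS `(W, S)` and `I ⊆ S` such that `W_I` is closed neither under meets nor under joins
of bounded subsets. -/
theorem result : EMIS S ∧ ∃ I ⊆ S,
    (∃ X ⊆ (Subgroup.closure I : Set G), X.Nonempty ∧ (∃ m, IsMeet S X m) ∧
      ∀ m, IsMeet S X m → m ∉ Subgroup.closure I) ∧
    (∃ X ⊆ (Subgroup.closure I : Set G), (∃ j, IsJoin S X j) ∧
      ∀ j, IsJoin S X j → j ∉ Subgroup.closure I) := by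
  have ha : a ∈ Subgroup.closure ({a, c} : Set G) := Subgroup.subset_closure (by simp)
  have hc : c ∈ Subgroup.closure ({a, c} : Set G) := Subgroup.subset_closure (by simp)
  refine ⟨⟨Set.toFinite _, ?_, ?_, ⟨MonoidHom.mk' sgn (by decide +kernel), ?_⟩, fun X hX => ?_⟩,
    {a, c}, by rintro _ (rfl | rfl) <;> simp [S], ⟨{a * c, c * a * c}, ?_, by simp, ?_, ?_⟩,
    ⟨{c, a * c}, ?_, ?_, ?_⟩⟩
  · rintro _ (rfl | rfl | rfl | rfl) <;> exact orderOf_eq_prime (by decide) (by decide)
  · refine eq_top_iff.mpr fun x _ => ?_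
    rw [← (wd_spec x).2.1]
    exact list_prod_mem fun s hs => Subgroup.subset_closure ((wd_spec x).1 s hs)
  · rintro _ (rfl | rfl | rfl | rfl) <;> rfl
  · obtain ⟨m, hm⟩ := meets X.toFinite.toFinset (by simpa using hX)
    simp only [Set.Finite.mem_toFinset] at hm
    exact ⟨m, by simpa only [leR_iff] using (hm m).mp (le_rfl' m),
      fun y => by simpa only [leR_iff] using (hm y).mpr⟩
  · rintro _ (rfl | rfl)
    exacts [mul_mem ha hc, mul_mem (mul_mem hc ha) hc]
  · refine ⟨d, ?_⟩
    simp only [IsMeet, leR_iff, Set.mem_insert_iff, Set.mem_singleton_iff, forall_eq_or_imp,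
      forall_eq]
    decide +kernel
  · simp only [IsMeet, leR_iff, Set.mem_insert_iff, Set.mem_singleton_iff, forall_eq_or_imp,
      forall_eq]
    exact fun m hm => notMem (by revert m; decide +kernel)
  · rintro _ (rfl | rfl)
    exacts [hc, mul_mem ha hc]
  · refine ⟨a * c * d, ?_⟩
    simp only [IsJoin, leR_iff, Set.mem_insert_iff, Set.mem_singleton_iff, forall_eq_or_imp,
      forall_eq]
    decide +kernel
  · simp only [IsJoin, leR_iff, Set.mem_insert_iff, Set.mem_singleton_iff, forall_eq_or_imp,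
      forall_eq]
    exact fun m hm => notMem (by revert m; decide +kernel)

end Pool.Agent.Results.MP_e25dcb_al.Counterexample
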